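import Pool.Agent.H519R2.Coro.Rho
import Pool.Agent.H519R2.TSP.Blich

/-! Unit-separated points in the unit cube (MP_08c4cb_co), from the packing density. -/

open MeasureTheory Metric Filter Set
open scoped Topology

namespace Pool.Agent.H519R2.Coro

open Pool.Agent.H519R2.TSP Pool.Agent.Results.MP_08c4cb_co

lemma P_le {n : ℕ} (hn : 1 ≤ n) {K : ℝ} (hK : 0 < K) :
    (SpherePacking.P n K : ℝ) * V n ≤ theta n * (2 * K + 2) ^ n := by
  classical
  have : NeZero n := ⟨by omega⟩
  obtain ⟨X, hX, hS, hc⟩ := SpherePacking.exists_P hn hK.le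
  set Y := X.image (fun x => (2 : ℝ) • x) with hY
  have hinj : Function.Injective (fun x : EuclideanSpace ℝ (Fin n) => (2 : ℝ) • x) := by
    intro x y hxy
    exact smul_right_injective _ (two_ne_zero : (2 : ℝ) ≠ 0) hxy
  have hYc : Y.card = X.card := Finset.card_image_of_injective _ hinj
  have hYs : Pool.Agent.H818R2.Sep (2 * 1) Y :=
    sep_smul two_pos (fun x hx y hy hxy => hS x hx y hy hxy) Y (by intro x; simp [hY])
  rw [mul_one] at hYs
  have hYC : (Y : Set (EuclideanSpace ℝ (Fin n))) ⊆ Cb n (2 * K) := by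
    intro x hx
    simp only [hY, Finset.coe_image, Set.mem_image] at hx
    obtain ⟨y, hy, rfl⟩ := hx
    intro i
    have h2 := hX y hy i
    rw [PiLp.smul_apply, smul_eq_mul]
    constructor <;> linarith [h2.1, h2.2]
  have h := card_cube_le (by positivity) hYs hYC
  rw [hYc, hc] at h
  exact h

lemma f_le {n : ℕ} (hn : 1 ≤ n) :
    (SpherePacking.f n : ℝ) * V n ≤ theta n * 2 ^ n * Real.exp (2 * SpherePacking.er n) := by
  obtain ⟨D, hD, _⟩ := SpherePacking.exists_dens hn
  have h1 := SpherePacking.f_le_exp hn hD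
  have hV := V_pos n
  have h2 : D * V n ≤ theta n * 2 ^ n := by
    have hlim : Tendsto (fun K : ℝ => theta n * (2 + 2 / K) ^ n) atTop
        (𝓝 (theta n * (2 + 0) ^ n)) := by
      apply Tendsto.const_mul
      apply Tendsto.pow
      exact tendsto_const_nhds.add (tendsto_const_nhds.div_atTop tendsto_id)
    rw [add_zero] at hlim
    refine le_of_tendsto_of_tendsto (hD.mul_const (V n)) hlim ?_
    filter_upwards [eventually_gt_atTop 0] with K hK
    have h3 := P_le hn hK
    have hKn : 0 < K ^ n := by positivity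
    rw [div_mul_eq_mul_div, div_le_iff₀ hKn]
    have h4 : theta n * (2 + 2 / K) ^ n * K ^ n = theta n * (2 * K + 2) ^ n := by
      rw [mul_assoc, ← mul_pow]
      congr 2
      field_simp
    rw [h4]
    exact h3
  calc (SpherePacking.f n : ℝ) * V n ≤ (D * Real.exp (2 * SpherePacking.er n)) * V n :=
        mul_le_mul_of_nonneg_right h1 hV.le
    _ = (D * V n) * Real.exp (2 * SpherePacking.er n) := by ring
    _ ≤ _ := mul_le_mul_of_nonneg_right h2 (Real.exp_pos _).le

lemma er_div : Tendsto (fun n : ℕ => SpherePacking.er n / n) atTop (𝓝 0) := by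
  have h1 := tendsto_log_div
  have h2 : Tendsto (fun n : ℕ => (Real.log ((n : ℝ) + 1) / n) ^ ((1 : ℝ) / 3)) atTop (𝓝 (0 ^ ((1 : ℝ) / 3))) :=
    (Real.continuousAt_rpow_const 0 ((1 : ℝ) / 3) (Or.inr (by norm_num))).tendsto.comp h1
  rw [Real.zero_rpow (by norm_num)] at h2
  refine h2.congr' ?_
  filter_upwards [eventually_gt_atTop 0] with n hn
  have hn0 : (0 : ℝ) < n := by exact_mod_cast hn
  have hl : 0 ≤ Real.log ((n : ℝ) + 1) := Real.log_nonneg (by linarith)
  unfold SpherePacking.er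
  rw [Real.div_rpow hl hn0.le]
  have h3 : (n : ℝ) = (n : ℝ) ^ ((2 : ℝ) / 3) * (n : ℝ) ^ ((1 : ℝ) / 3) := by
    rw [← Real.rpow_add hn0, show (2 : ℝ) / 3 + 1 / 3 = 1 by norm_num, Real.rpow_one]
  have h4 : (0 : ℝ) < (n : ℝ) ^ ((2 : ℝ) / 3) := Real.rpow_pos_of_pos hn0 _
  have h5 : (0 : ℝ) < (n : ℝ) ^ ((1 : ℝ) / 3) := Real.rpow_pos_of_pos hn0 _
  rw [div_eq_div_iff h5.ne' hn0.ne']
  set lg := Real.log ((n : ℝ) + 1) ^ ((1 : ℝ) / 3) with hlg
  calc lg * (n : ℝ) = lg * ((n : ℝ) ^ ((2 : ℝ) / 3) * (n : ℝ) ^ ((1 : ℝ) / 3)) := by rw [← h3]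
    _ = (n : ℝ) ^ ((2 : ℝ) / 3) * lg * (n : ℝ) ^ ((1 : ℝ) / 3) := by ring

/-- The number `f(n)` of points of the unit cube with mutual distances at least one. -/
theorem cube_bound (iid : Pool.Agent.H390R2.LP.IID) : ∃ n0 : ℕ, ∀ n ≥ n0,
    Real.log (SpherePacking.f n) ≤ (n : ℝ) / 2 * Real.log n -
      (1 / 2 * Real.log (2 * Real.pi * Real.exp 1) - 397 / 1000 * Real.log 2) * n := by
  obtain ⟨c, hc, n1, hn1⟩ := rho_le iid
  set δ := c - 603 / 1000 * Real.log 2 with hδ
  have hδ0 : 0 < δ := by linarith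
  have e1 : ∀ᶠ n : ℕ in atTop, SpherePacking.er n / n < δ / 4 :=
    er_div.eventually_lt_const (by linarith)
  have e2 : ∀ᶠ n : ℕ in atTop, Real.log (2 * Real.pi * Real.exp 1) / 2 - δ / 4 <
      Real.log (V n) / n + Real.log n / 2 :=
    tendsto_log_V.eventually_const_lt (by linarith)
  obtain ⟨n2, hn2⟩ := Filter.eventually_atTop.1 (e1.and (e2.and (eventually_gt_atTop 0)))
  refine ⟨max n1 n2, fun n hn => ?_⟩
  have h1 := hn1 n ((le_max_left _ _).trans hn)
  obtain ⟨h2, h3, hpos⟩ := hn2 n ((le_max_right _ _).trans hn)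
  have hn0 : (0 : ℝ) < n := by exact_mod_cast hpos
  have : NeZero n := ⟨hpos.ne'⟩
  have hV := V_pos n
  have hf := f_le (n := n) hpos
  have hfpos : (0 : ℝ) < SpherePacking.f n := by
    have h4 := SpherePacking.one_le_f_mul (n := n) hpos
    have h5 := SpherePacking.om_pos n
    by_contra h
    push Not at h
    nlinarith
  have hlog : Real.log (SpherePacking.f n) + Real.log (V n) ≤
      -(n * c) + n * Real.log 2 + 2 * SpherePacking.er n := by
    rw [← Real.log_mul hfpos.ne' hV.ne']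
    have h6 : (SpherePacking.f n : ℝ) * V n ≤
        Real.exp (-(n * c)) * 2 ^ n * Real.exp (2 * SpherePacking.er n) := by
      refine hf.trans ?_
      have : theta n ≤ Real.exp (-(n * c)) := h1
      gcongr
    refine (Real.log_le_log (by positivity) h6).trans (le_of_eq ?_)
    rw [Real.log_mul (by positivity) (by positivity), Real.log_mul (by positivity) (by positivity),
      Real.log_exp, Real.log_exp, Real.log_pow]
  rw [div_lt_iff₀ hn0] at h2
  have h7 : (Real.log (2 * Real.pi * Real.exp 1) / 2 - δ / 4) * n <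
      Real.log (V n) + n / 2 * Real.log n := by
    have := mul_lt_mul_of_pos_right h3 hn0
    have h8 : (Real.log (V n) / n + Real.log n / 2) * n = Real.log (V n) + n / 2 * Real.log n := by
      field_simp
    rwa [h8] at this
  have h9 : c = 603 / 1000 * Real.log 2 + δ := by rw [hδ]; ring
  rw [h9] at hlog
  nlinarith [mul_pos hn0 hδ0]

end Pool.Agent.H519R2.Coro
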