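import Pool.Agent.H390R2.LP.Euclid
import Pool.Agent.H232R2.LP.Final
import Pool.Agent.H818R2.Rate

/-! The packing bound in terms of the real valued density `H818R2.rho`. -/

open MeasureTheory Metric Filter Set
open scoped Topology ENNReal

namespace Pool.Agent.H519R2.Coro

open Pool.Agent.H390R2.LP

lemma rho_le_of_rhoStar {n : ℕ} {a : ℝ} (ha : 0 ≤ a) (h : rhoStar n ≤ ENNReal.ofReal a) :
    Pool.Agent.H818R2.rho n ≤ a := by
  unfold Pool.Agent.H818R2.rho Pool.Agent.H818R2.optDensity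
  refine csSup_le (s := {δ | ∃ (X : Set (EuclideanSpace ℝ (Fin n))) (r : ℝ),
      Pool.Agent.H818R2.IsPacking X r ∧ Pool.Agent.H818R2.upperDensity X r = δ})
    ⟨_, ∅, 1, Pool.Agent.H818R2.isPacking_empty, rfl⟩ ?_
  rintro δ ⟨X, r, hX, rfl⟩
  have h1 : upperDensity X r ≤ ENNReal.ofReal a := by
    refine le_trans ?_ h
    unfold rhoStar
    exact le_iSup₂_of_le X r (le_iSup_of_le hX le_rfl)
  apply le_of_forall_pos_le_add
  intro ε hε
  have h2 : upperDensity X r < ENNReal.ofReal (a + ε) :=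
    lt_of_le_of_lt h1 ((ENNReal.ofReal_lt_ofReal_iff (by linarith)).2 (by linarith))
  have h3 := Filter.eventually_lt_of_limsup_lt h2
  unfold Pool.Agent.H818R2.upperDensity
  refine limsup_le_of_le (Pool.Agent.H818R2.ratio_cobdd X r) ?_
  filter_upwards [h3] with R hR
  have h4 : volume.real (ball (0 : EuclideanSpace ℝ (Fin n)) R ∩ Pool.Agent.H818R2.body X r) /
      volume.real (ball (0 : EuclideanSpace ℝ (Fin n)) R) =
      (volume (ball (0 : EuclideanSpace ℝ (Fin n)) R ∩ ⋃ x ∈ X, ball x r) /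
        volume (ball (0 : EuclideanSpace ℝ (Fin n)) R)).toReal := by
    rw [ENNReal.toReal_div]; rfl
  rw [h4]
  exact ENNReal.toReal_le_of_le_ofReal (by linarith) hR.le

/-- the new sphere packing bound, real form -/
theorem rho_le (iid : IID) : ∃ c : ℝ, 603 / 1000 * Real.log 2 < c ∧ ∃ n0 : ℕ, ∀ n ≥ n0,
    Pool.Agent.H818R2.rho n ≤ Real.exp (-(n * c)) := by
  obtain ⟨Ω, i1, i2, q, s, hg, hg0, _, hc⟩ := Pool.Agent.H232R2.LP.exists_site_cval
  have hc' : 603 / 1000 * Real.log 2 < cE s hg := hc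
  obtain ⟨n0, hn0⟩ := euclid iid s hg hg0 ((cE s hg - 603 / 1000 * Real.log 2) / 2) (by linarith)
  refine ⟨cE s hg - (cE s hg - 603 / 1000 * Real.log 2) / 2, by linarith, n0, fun n hn =>
    rho_le_of_rhoStar (Real.exp_pos _).le (hn0 n hn)⟩

end Pool.Agent.H519R2.Coro
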