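import Pool.Agent.H519R2.Coro.Rho
import Pool.Agent.H519R2.TSP.Vol

/-! The new packing bound for the worst-case TSP constant (MP_3f7b2e_co). -/

open MeasureTheory Metric Filter Set
open scoped Topology

namespace Pool.Agent.H519R2.TSP

open Pool.Agent.H390R2.LP

lemma limsup_tt_new (iid : IID) : limsup tt atTop ≤ (2 : ℝ) ^ (-(603 / 1000 : ℝ)) := by
  obtain ⟨c, hc, n0, hn0⟩ := Coro.rho_le iid
  refine limsup_le_of_le tt_bdd'.isCoboundedUnder_le ?_
  filter_upwards [eventually_ge_atTop n0, eventually_gt_atTop 0] with d hd hd0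
  have hd1 : (0 : ℝ) < d := by exact_mod_cast hd0
  calc tt d ≤ (Real.exp (-(d * c))) ^ ((1 : ℝ) / d) :=
        Real.rpow_le_rpow (Pool.Agent.H818R2.rho_nonneg d) (hn0 d hd) (by positivity)
    _ = Real.exp (-c) := by
        rw [← Real.exp_mul]
        congr 1
        field_simp
    _ ≤ Real.exp (-(603 / 1000 * Real.log 2)) := Real.exp_le_exp.2 (by linarith)
    _ = (2 : ℝ) ^ (-(603 / 1000 : ℝ)) := by
        rw [Real.rpow_def_of_pos two_pos]
        congr 1
        ring

theorem limsup_alpha_new (iid : IID) :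
    limsup alpha' atTop ≤ (2 : ℝ) ^ (397 / 1000 : ℝ) / √(2 * Real.pi * Real.exp 1) := by
  rw [limsup_alpha]
  calc G * limsup tt atTop ≤ G * (2 : ℝ) ^ (-(603 / 1000 : ℝ)) :=
        mul_le_mul_of_nonneg_left (limsup_tt_new iid) G_pos.le
    _ = _ := by
        unfold G
        have : (2 : ℝ) ^ (397 / 1000 : ℝ) = 2 * (2 : ℝ) ^ (-(603 / 1000 : ℝ)) := by
          rw [show (397 / 1000 : ℝ) = 1 + (-(603 / 1000 : ℝ)) by norm_num,
            Real.rpow_add two_pos, Real.rpow_one]
        rw [this]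
        ring

end Pool.Agent.H519R2.TSP
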